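import Pool.Agent.Run7.h327.Th.Main

/-!
# An expanding Thurston map that is not topologically conjugate to a smooth map

The map is the radial projection to the unit sphere of the piecewise linear map

`F (a, b, c) = (|a| - |b|, |c| - |H|, |c - H| - |c + H|)`, `H = |a + b| - |a - b|`,

of `ℝ³`. It has degree `4`, its fibres are the orbits of the group of the four sign changes of
determinant one, its critical points are the six points on the coordinate axes (all of local degree
`2`), and `(1, 0, 0)` is a fixed critical point. The equator `c = 0` is an invariant Jordan curve
that contains the postcritical points `(±1, 0, 0)`, `(0, 1, 0)`.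

A `C¹` map of a surface that is locally injective near a point `p`, but not at `p`, has derivative
zero at `p`. So for a `C¹` map conjugate to `f` the fixed point corresponding to `(1, 0, 0)` would
be attracting, but `(1, 0, 0)` is a repelling fixed point of `f`.
-/

open scoped Manifold ContDiff

namespace Pool.Agent.Results.MP_89829e_an.NoSmoothModel

open Pool.Agent.Run7.h327.Th

/-- There is an expanding Thurston map `f` of the sphere such that no `C¹` map `g` of the Riemann
sphere to itself is topologically conjugate to `f`. -/
theorem result : ∃ f : S2 → S2, IsExpandingThurstonMap f ∧
    ∀ (g : S2 → S2) (h : S2 ≃ₜ S2), (∀ x, h (f x) = g (h x)) →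
      ¬ ContMDiff (𝓡 2) (𝓡 2) 1 g :=
  main

end Pool.Agent.Results.MP_89829e_an.NoSmoothModel
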